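import Pool.Agent.helper61.CSW.W.SpecW
import Pool.Agent.helper22.EXQ.EQJ

/-!
# Project csw: (MP_70a088_an), row EQS: an invariant vector field vanishes on the Julia set (class S; copy of Pool/Agent/helper22/EXQ/EQJ.lean)
-/

set_option autoImplicit false

open Complex Metric Set Filter Topology MeasureTheory
open YPPS (fd fdd pre TT CV IsCyc rho Exact)
open MPS (BB)
open Pool.Agent.helper98.ILF (juliaSet fatouSet chordal)

noncomputable section

open CSS (SE SV JJ)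

namespace YW

theorem EQS_diff (f : SE) : Differentiable ℂ (fun w : ℂ => f.eval w) := f.dif

theorem EQS_it (f : SE) (v : ℂ → ℂ) (h : ∀ z, v (f.eval z) = fd f z * v z) (k : ℕ) :
    ∀ z, v ((fun w : ℂ => f.eval w)^[k] z) = deriv ((fun w : ℂ => f.eval w)^[k]) z * v z := by
  induction k with
  | zero => intro z; simp
  | succ k ih =>
    intro z
    have h1 : deriv (fun w : ℂ => f.eval w) z = fd f z := rfl
    rw [Function.iterate_succ, deriv_comp z (((EQS_diff f).iterate k) _) ((EQS_diff f) z), h1,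
      Function.comp_apply, ih (f.eval z), h]
    ring

/-- row EQS. -/
theorem EQS : EQS_stmt := by
  intro f v C hv hC hf z hz
  by_contra hne
  obtain ⟨s, hs⟩ : ∃ s : ℝ, s = ‖v z‖ / 2 := ⟨_, rfl⟩
  have hv0 : 0 < ‖v z‖ := norm_pos_iff.2 hne
  have hs0 : 0 < s := by rw [hs]; positivity
  have hlt : s < ‖v z‖ := by rw [hs]; linarith
  have hev : ∀ᶠ w in 𝓝 z, s < ‖v w‖ := (hv.norm.continuousAt (x := z)).eventually_const_lt hlt
  obtain ⟨δ, hδ, hball⟩ := Metric.eventually_nhds_iff_ball.1 hev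
  obtain ⟨L, hL⟩ : ∃ L : ℝ, L = 2 * |C| / s := ⟨_, rfl⟩
  have hL0 : 0 ≤ L := by rw [hL]; positivity
  have hder : ∀ (k : ℕ), ∀ w ∈ ball z δ, ‖deriv ((fun w : ℂ => f.eval w)^[k]) w‖ ≤ L * (1 + ‖(fun w : ℂ => f.eval w)^[k] w‖ ^ 2) := by
    intro k w hw
    have h1 := EQS_it f v hf k w
    have h2 : ‖deriv ((fun w : ℂ => f.eval w)^[k]) w‖ * ‖v w‖ ≤ 2 * |C| * (1 + ‖(fun w : ℂ => f.eval w)^[k] w‖ ^ 2) := by
      rw [← norm_mul, ← h1]
      refine (hC _).trans ?_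
      have h3 := EXQ.EQJ_gr ((fun w : ℂ => f.eval w)^[k] w)
      have h4 := EXQ.EQJ_gr0 ((fun w : ℂ => f.eval w)^[k] w)
      calc C * EXQ.gr ((fun w : ℂ => f.eval w)^[k] w) ≤ |C| * EXQ.gr ((fun w : ℂ => f.eval w)^[k] w) :=
            mul_le_mul_of_nonneg_right (le_abs_self C) h4
        _ ≤ |C| * (2 * (1 + ‖(fun w : ℂ => f.eval w)^[k] w‖ ^ 2)) := by gcongr
        _ = 2 * |C| * (1 + ‖(fun w : ℂ => f.eval w)^[k] w‖ ^ 2) := by ring
    have h3 := hball w hw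
    rw [hL, div_mul_eq_mul_div, le_div_iff₀ hs0]
    calc ‖deriv ((fun w : ℂ => f.eval w)^[k]) w‖ * s ≤ ‖deriv ((fun w : ℂ => f.eval w)^[k]) w‖ * ‖v w‖ := by gcongr
      _ ≤ _ := h2
  refine hz (mem_interior.2 ⟨ball z δ, ?_, isOpen_ball, mem_ball_self hδ⟩)
  intro z₁ hz₁ ε hε
  have hz' : 0 < δ - dist z₁ z := by
    rw [mem_ball] at hz₁
    linarith
  refine ⟨min (δ - dist z₁ z) (ε / (4 * L + 1)), lt_min hz' (by positivity), fun w hw k => ?_⟩
  have hw1 : ‖w - z₁‖ < δ - dist z₁ z := hw.trans_le (min_le_left _ _)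
  have hw2 : ‖w - z₁‖ < ε / (4 * L + 1) := hw.trans_le (min_le_right _ _)
  have hseg : ∀ t ∈ Icc (0 : ℝ) 1, z₁ + t * (w - z₁) ∈ ball z δ := by
    intro t ht
    rw [mem_ball]
    have h1 := dist_triangle (z₁ + t * (w - z₁)) z₁ z
    have h2 : dist (z₁ + t * (w - z₁)) z₁ ≤ ‖w - z₁‖ := by
      rw [dist_eq_norm, add_sub_cancel_left, norm_mul, Complex.norm_real, Real.norm_eq_abs,
        abs_of_nonneg ht.1]
      exact mul_le_of_le_one_left (norm_nonneg _) ht.2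
    linarith
  have h1 := EXQ.EQJ_mvt ((fun w : ℂ => f.eval w)^[k]) ((EQS_diff f).iterate k) z₁ w L (fun t ht => hder k _ (hseg t ht))
  calc chordal ((fun w : ℂ => f.eval w)^[k] w) ((fun w : ℂ => f.eval w)^[k] z₁) ≤ 4 * (L * ‖w - z₁‖) := h1
    _ ≤ (4 * L + 1) * ‖w - z₁‖ := by nlinarith [norm_nonneg (w - z₁)]
    _ < ε := by
      rw [lt_div_iff₀ (by positivity)] at hw2
      linarith

end YW
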